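import Pool.Agent.H95.ILV.Targets

/-!
# MP_de9001_an, row REG: crossing a region
-/

set_option autoImplicit false

open MeasureTheory AddCircle Filter Topology Pool.Agent.H87.Synth Pool.Agent.H23.Synth
open Pool.Agent.H95.ILV

namespace Pool.Agent.H46.ILV

/-- the number of levels passed -/
def jj (M : ℕ) (κ : ℕ → ℕ) (n : ℤ) : ℕ := ((Finset.range M).filter fun j => 2 * κ j ≤ n.natAbs).card

theorem jj_iff {M : ℕ} {κ : ℕ → ℕ} (hm : ∀ j j', j ≤ j' → j' < M → κ j ≤ κ j') (n : ℤ) {j : ℕ}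
    (hj : j < M) : 2 * κ j ≤ n.natAbs ↔ j < jj M κ n := by
  unfold jj
  constructor
  · intro h
    have hsub : Finset.range (j + 1) ⊆ (Finset.range M).filter fun j => 2 * κ j ≤ n.natAbs := by
      intro a ha
      rw [Finset.mem_range] at ha
      rw [Finset.mem_filter, Finset.mem_range]
      have := hm a j (by omega) hj
      exact ⟨by omega, by omega⟩
    have := Finset.card_le_card hsub
    rw [Finset.card_range] at this
    omega
  · intro h
    by_contra hc
    have hsub : ((Finset.range M).filter fun j => 2 * κ j ≤ n.natAbs) ⊆ Finset.range j := by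
      intro a ha
      rw [Finset.mem_filter, Finset.mem_range] at ha
      rw [Finset.mem_range]
      by_contra hja
      have := hm j a (by omega) ha.1
      omega
    have := Finset.card_le_card hsub
    rw [Finset.card_range] at this
    omega

theorem neg_one_zpow_par {m m' : ℤ} (h : m % 2 = m' % 2) : (-1 : ℂ) ^ m = (-1) ^ m' := by
  rcases Int.even_or_odd m with h1 | h1
  · have h2 : Even m' := by
      rw [Int.even_iff] at h1 ⊢
      omega
    rw [h1.neg_one_zpow, h2.neg_one_zpow]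
  · have h2 : Odd m' := by
      rw [Int.odd_iff] at h1 ⊢
      omega
    rw [h1.neg_one_zpow, h2.neg_one_zpow]

theorem pf_REG (h1 : T_EST) (h2 : T_VPN) (h3 : T_PLR) (h4 : T_GEL) : T_REG := by
  classical
  intro c T M u κ s f g hf p hp i n n' hpar hn1 hn2 hn1' hn2'
  obtain ⟨ga, gb, gc, gd, ge, -⟩ := h4 c T M u κ g
  have hBd : Bd M κ (i + 1) = 2 * κ i (M i - 1) := rfl
  have hM1 := g.m1 i
  have hstep := g.step i
  have hb := gb i
  -- the plateau
  have hpl : ∀ m : ℤ, Bd M κ i + 4 * u i ≤ m.natAbs → m.natAbs < Bd M κ (i + 1) + u (i + 1) →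
      coeff f m = (1 / 3) ^ Nat.log 2 (i + 1) * (-1) ^ m := fun m hm1 hm2 =>
    h3 c T M u κ s f g hf i m (Or.inr hm1) hm2.le
  -- class constancy
  have hcl : ∀ m m' : ℤ, m % 2 = m' % 2 → Bd M κ i + 4 * u i ≤ m.natAbs →
      m.natAbs < Bd M κ (i + 1) + u (i + 1) → Bd M κ i + 4 * u i ≤ m'.natAbs →
      m'.natAbs < Bd M κ (i + 1) + u (i + 1) → jj (M i) (κ i) m = jj (M i) (κ i) m' →
      coeff (f - poly p) m = coeff (f - poly p) m' := by
    intro m m' hmm hm1 hm2 hm1' hm2' hJ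
    have hfm : coeff f m = coeff f m' := by
      rw [hpl m hm1 hm2, hpl m' hm1' hm2', neg_one_zpow_par hmm]
    have hpm : p m = p m' := by
      refine hp m m' ⟨hfm, ?_⟩
      rintro N ⟨i', j, hj, rfl⟩
      rcases lt_trichotomy i' i with hi | hi | hi
      · have := gd i i' j hi hj
        omega
      · subst hi
        have e1 := jj_iff (ga i') m hj
        have e2 := jj_iff (ga i') m' hj
        rw [hJ] at e1
        rw [← not_le, ← not_le, e1, e2]
      · have := ge (i + 1) i' j hi hj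
        omega
    rw [coeff_sub, coeff_sub, poly, coeff_linComb, coeff_linComb, hfm, hpm]
  -- the values
  let W : ℕ → ℤ → Prop := fun J m => m % 2 = n % 2 ∧ Bd M κ i + 4 * u i ≤ m.natAbs ∧
    m.natAbs < Bd M κ (i + 1) + u (i + 1) ∧ jj (M i) (κ i) m = J
  let A : ℕ → ℂ := fun J => if h : ∃ m, W J m then coeff (f - poly p) h.choose else 0
  have hA : ∀ J m, W J m → A J = coeff (f - poly p) m := by
    intro J m hm
    have hex : ∃ m, W J m := ⟨m, hm⟩
    have hc := hex.choose_spec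
    show (if h : ∃ m, W J m then coeff (f - poly p) h.choose else 0) = _
    rw [dif_pos hex]
    exact hcl _ _ (hc.1.trans hm.1.symm) hc.2.1 hc.2.2.1 hm.2.1 hm.2.2.1
      (hc.2.2.2.trans hm.2.2.2.symm)
  have hest := h1 (f - poly p) (T i) (M i) (κ i) (n % 2) (Bd M κ i + 4 * u i) (u i)
    (Bd M κ (i + 1)) (u (i + 1)) A (g.t2 i) (g.m1 i) (Int.emod_two_eq_zero_or_one n) (g.gap i)
    (g.mono i) (g.k1 i) (g.u2 i) (g.u2 (i + 1)) (by omega) (le_of_eq hBd.symm)
    (fun m hm1 hm2 hm3 => (hA _ m ⟨hm1, hm2, hm3, rfl⟩).symm)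
  have hn3 : n.natAbs < Bd M κ (i + 1) + u (i + 1) := by omega
  have hn4 : Bd M κ i + 4 * u i ≤ n'.natAbs := by omega
  have hJ0 : jj (M i) (κ i) n = 0 := by
    unfold jj
    rw [Finset.card_eq_zero, Finset.filter_eq_empty_iff]
    intro j hj
    rw [Finset.mem_range] at hj
    have := ga i 0 j (Nat.zero_le _) hj
    omega
  have hJM : jj (M i) (κ i) n' = M i := by
    unfold jj
    rw [Finset.filter_true_of_mem, Finset.card_range]
    intro j hj
    rw [Finset.mem_range] at hj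
    have := ga i j (M i - 1) (by omega) (by omega)
    omega
  rw [hA 0 n ⟨rfl, hn1, hn3, hJ0⟩, hA (M i) n' ⟨hpar.symm, hn4, hn2', hJM⟩] at hest
  have hff : coeff f n = coeff f n' := by
    rw [hpl n hn1 hn3, hpl n' hn4 hn2', neg_one_zpow_par hpar]
  have hlhs : ‖coeff (f - poly p) n - coeff (f - poly p) n'‖ = ‖p n - p n'‖ := by
    rw [coeff_sub, coeff_sub, poly, coeff_linComb, coeff_linComb, hff, sub_sub_sub_cancel_left,
      norm_sub_rev]
  rw [hlhs] at hest
  have hv0 : ‖VP (Bd M κ i + 4 * u i) (u i)‖ ≤ 3 + ((i + c : ℕ) : ℝ) :=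
    h2 _ _ _ (by have := g.u2 i; omega) (g.vp i)
  have hv1 : ‖VP (Bd M κ (i + 1)) (u (i + 1))‖ ≤ 3 + ((i + 1 + c : ℕ) : ℝ) :=
    h2 _ _ _ (by have := g.u2 (i + 1); omega) ((Nat.le_add_right _ _).trans (g.vp (i + 1)))
  have hv : ‖VP (Bd M κ i + 4 * u i) (u i)‖ + ‖VP (Bd M κ (i + 1)) (u (i + 1))‖ ≤
      7 + 2 * c + 2 * i := by
    push_cast at hv0 hv1
    linarith
  refine hest.trans ?_
  gcongr

end Pool.Agent.H46.ILV
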